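import Pool.Agent.H96.KX.Targets2

/-!
# RHS3: a right hand side which is far from all the vectors `A z`, by counting (helper49)
-/

set_option autoImplicit false

namespace Pool.Agent.H49.KX3

open Finset
open Pool.Agent.H1.LP (ip)
open Pool.Agent.H96.KX

/-- exponential moment of the Hamming distance to a fixed vector -/
theorem moment (R : ℕ) (v : Fin R → ZMod 2) (s : ℝ) :
    ∑ be : Fin R → ZMod 2, Real.exp (-(s * ((univ.filter (fun i => v i ≠ be i)).card : ℝ))) =
      (1 + Real.exp (-s)) ^ R := by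
  have h1 : ∀ be : Fin R → ZMod 2,
      Real.exp (-(s * ((univ.filter (fun i => v i ≠ be i)).card : ℝ))) =
      ∏ i, (if v i ≠ be i then Real.exp (-s) else 1) := by
    intro be
    rw [prod_ite, prod_const, prod_const_one, mul_one, ← Real.exp_nat_mul]
    congr 1
    ring
  rw [sum_congr rfl fun be _ => h1 be]
  have h2 : ∑ be : Fin R → ZMod 2, ∏ i, (if v i ≠ be i then Real.exp (-s) else 1) =
      ∏ i : Fin R, ∑ x : ZMod 2, (if v i ≠ x then Real.exp (-s) else 1) := by
    rw [prod_univ_sum]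
    simp
  have h3 : ∀ i : Fin R, ∑ x : ZMod 2, (if v i ≠ x then Real.exp (-s) else 1) =
      1 + Real.exp (-s) := by
    intro i
    have : ∀ y : ZMod 2, ∑ x : ZMod 2, (if y ≠ x then Real.exp (-s) else 1) =
        1 + Real.exp (-s) := by
      intro y
      have hu : (univ : Finset (ZMod 2)) = {0, 1} := by decide
      rw [hu, sum_pair (by decide)]
      have hy : y = 0 ∨ y = 1 := by
        revert y
        decide
      rcases hy with rfl | rfl
      · simp
      · simp
        ring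
    exact this (v i)
  rw [h2, prod_congr rfl fun i _ => h3 i, prod_const, card_univ, Fintype.card_fin]

theorem pf_RHS3 : S_RHS3 := by
  intro ε hε
  obtain ⟨R0, hR0⟩ := exists_nat_gt (2 / ε ^ 2)
  refine ⟨R0 + 1, by omega, ?_⟩
  intro B A hB
  obtain ⟨R, hR⟩ : ∃ R, R = (R0 + 1) * B := ⟨_, rfl⟩
  by_contra hcon
  push_neg at hcon
  -- every right hand side is close to some `A z`
  have hε2 : 0 < ε ^ 2 := by positivity
  have hs : (0 : ℝ) < 2 * ε := by linarith
  have hsum : ∀ be : Fin ((R0 + 1) * B) → ZMod 2,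
      Real.exp (-(2 * ε * ((1 - ε) * ((((R0 + 1) * B : ℕ) : ℝ) / 2)))) ≤
      ∑ z : Fin B → ZMod 2, Real.exp (-(2 * ε *
        ((univ.filter (fun i => ip (A i) z ≠ be i)).card : ℝ))) := by
    intro be
    obtain ⟨z, hz⟩ := hcon be
    refine le_trans ?_ (single_le_sum (f := fun z : Fin B → ZMod 2 => Real.exp (-(2 * ε *
        ((univ.filter (fun i => ip (A i) z ≠ be i)).card : ℝ))))
        (fun z _ => (Real.exp_pos _).le) (mem_univ z))
    rw [Real.exp_le_exp]
    have := mul_le_mul_of_nonneg_left hz.le hs.le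
    linarith
  have htot : (2 : ℝ) ^ ((R0 + 1) * B) *
      Real.exp (-(2 * ε * ((1 - ε) * ((((R0 + 1) * B : ℕ) : ℝ) / 2)))) ≤
      2 ^ B * (1 + Real.exp (-(2 * ε))) ^ ((R0 + 1) * B) := by
    have e1 := sum_le_sum (s := univ) fun be (_ : be ∈ (univ : Finset
      (Fin ((R0 + 1) * B) → ZMod 2))) => hsum be
    rw [sum_const, card_univ, nsmul_eq_mul, Fintype.card_fun, ZMod.card, Fintype.card_fin,
      sum_comm] at e1
    have e2 : ∀ z : Fin B → ZMod 2, ∑ be : Fin ((R0 + 1) * B) → ZMod 2,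
        Real.exp (-(2 * ε * ((univ.filter (fun i => ip (A i) z ≠ be i)).card : ℝ))) =
        (1 + Real.exp (-(2 * ε))) ^ ((R0 + 1) * B) := fun z => moment _ _ _
    rw [sum_congr rfl fun z _ => e2 z, sum_const, card_univ, nsmul_eq_mul, Fintype.card_fun,
      ZMod.card, Fintype.card_fin] at e1
    push_cast at e1 ⊢
    exact e1
  rw [← hR] at htot
  have hRR : (R : ℝ) = (R0 + 1) * B := by
    rw [hR]
    push_cast
    ring
  -- cosh
  have hcosh : 1 + Real.exp (-(2 * ε)) ≤ 2 * Real.exp (-ε + ε ^ 2 / 2) := by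
    have h1 := Real.cosh_le_exp_half_sq ε
    rw [Real.cosh_eq] at h1
    have h2 : 1 + Real.exp (-(2 * ε)) = 2 * (Real.exp (-ε) * ((Real.exp ε + Real.exp (-ε)) / 2))
        := by
      have e1 : Real.exp (-ε) * Real.exp ε = 1 := by
        rw [← Real.exp_add]
        simp
      have e2 : Real.exp (-ε) * Real.exp (-ε) = Real.exp (-(2 * ε)) := by
        rw [← Real.exp_add]
        congr 1
        ring
      linear_combination (-1 : ℝ) * e1 - e2
    rw [h2, Real.exp_add]
    have h3 := mul_le_mul_of_nonneg_left h1 (Real.exp_pos (-ε)).le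
    linarith
  have hpow : (1 + Real.exp (-(2 * ε))) ^ R ≤ 2 ^ R * Real.exp (R * (-ε + ε ^ 2 / 2)) := by
    calc (1 + Real.exp (-(2 * ε))) ^ R ≤ (2 * Real.exp (-ε + ε ^ 2 / 2)) ^ R :=
          pow_le_pow_left₀ (by positivity) hcosh R
      _ = 2 ^ R * Real.exp (R * (-ε + ε ^ 2 / 2)) := by
          rw [mul_pow, ← Real.exp_nat_mul]
  have h2B : (2 : ℝ) ^ B < Real.exp (B : ℝ) := by
    have h1 : (2 : ℝ) < Real.exp 1 := by
      have := Real.exp_one_gt_d9
      linarith
    have h2 : Real.exp (B : ℝ) = (Real.exp 1) ^ B := by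
      rw [← Real.exp_nat_mul, mul_one]
    rw [h2]
    exact pow_lt_pow_left₀ h1 (by norm_num) (by omega)
  have h2R : (0 : ℝ) < 2 ^ R := by positivity
  have hfin : Real.exp (-(2 * ε * ((1 - ε) * ((R : ℝ) / 2)))) ≤
      2 ^ B * Real.exp (R * (-ε + ε ^ 2 / 2)) := by
    have h3 : (2 : ℝ) ^ R * Real.exp (-(2 * ε * ((1 - ε) * ((R : ℝ) / 2)))) ≤
        2 ^ R * (2 ^ B * Real.exp (R * (-ε + ε ^ 2 / 2))) := by
      refine htot.trans ?_
      have := mul_le_mul_of_nonneg_left hpow (by positivity : (0 : ℝ) ≤ 2 ^ B)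
      linarith
    exact le_of_mul_le_mul_left h3 h2R
  have hlt : (2 : ℝ) ^ B * Real.exp (R * (-ε + ε ^ 2 / 2)) <
      Real.exp (B + R * (-ε + ε ^ 2 / 2)) := by
    rw [Real.exp_add]
    exact mul_lt_mul_of_pos_right h2B (Real.exp_pos _)
  have h4 := Real.exp_lt_exp.1 (hfin.trans_lt hlt)
  -- `ε ^ 2 R / 2 < B`, but `R ≥ (2 / ε ^ 2) B`
  have h5 : (R : ℝ) * ε ^ 2 / 2 < B := by nlinarith
  have h6 : 2 / ε ^ 2 * ε ^ 2 = 2 := div_mul_cancel₀ _ hε2.ne'
  have hB0 : (0 : ℝ) < B := by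
    have : 0 < B := by omega
    exact_mod_cast this
  have h7 : 2 < ((R0 : ℝ) + 1) * ε ^ 2 := by
    have := mul_lt_mul_of_pos_right hR0 hε2
    nlinarith
  rw [hRR] at h5
  nlinarith

end Pool.Agent.H49.KX3
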